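import Pool.Agent.Helper52.KripkeHA.NoPA

namespace Pool.Agent.Results.MP_bc5999_lc.NoPANode

open Pool.Agent.Helper52.KripkeHA

/-- There is a Kripke model of Heyting arithmetic none of whose nodes carries a model of Peano
arithmetic. -/
theorem result : ∃ K : KripkeModel, K.ForcesHA ∧ ∀ k : K.Node, ¬ K.SatPA k :=
  ⟨theModel, theModel_forcesHA, not_satPA⟩

end Pool.Agent.Results.MP_bc5999_lc.NoPANode
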